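import Mathlib

/-!
# Alexander polynomials of alternating knots have arbitrarily large real zeros

For every `m ≥ 1` we give an alternating knot diagram with `4 m + 4` crossings whose Alexander
polynomial has a real zero greater than `m + 2`. So there is no upper bound for the real parts of
the zeros of the Alexander polynomials of alternating knots.

The knot is the boundary of a plumbing of `2 m + 2` Hopf bands along a tree, whose signs alternate
(one band in the middle, to which a leaf and `m` chains of length two are attached), a Montesinos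
knot; its Alexander polynomial is
`(t² - 3 t + 1)^(m - 1) (t⁴ - (m + 6) t³ + (2 m + 11) t² - (m + 6) t + 1)`.

Knot diagrams are given by signed Gauss codes.
-/

set_option autoImplicit false

namespace Pool.Agent.Results.MP_644796_gt.UnboundedZeros

open Polynomial

/-- The predecessor `p - 1` in the cyclic order of `0, 1, …, N - 1`. -/
def prv {N : ℕ} (p : Fin N) : Fin N := ⟨(p + (N - 1)) % N, Nat.mod_lt _ p.pos⟩

/-- A signed Gauss code with `n` crossings. A point which runs once around the oriented knot passes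
`2 n` times through a crossing; these passages are numbered `0, 1, …, 2 n - 1` in their cyclic
order. `mate p` is the other passage through the crossing of the passage `p`, `isOver p` is true if
the knot passes over at the passage `p`, and `pos p` is true if the crossing is positive. -/
structure GaussCode (n : ℕ) where
  mate : Fin (2 * n) → Fin (2 * n)
  isOver : Fin (2 * n) → Bool
  pos : Fin (2 * n) → Bool
  mate_mate : ∀ p, mate (mate p) = p
  isOver_mate : ∀ p, isOver (mate p) = !isOver p
  pos_mate : ∀ p, pos (mate p) = pos p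

namespace GaussCode

variable {n : ℕ}

/-- The edge `p` is the part of the knot between the passage `p` and the next one; so the passage
`p` leads from the edge `prv p` to the edge `p`. The code is planar if it is the code of a diagram on the
sphere: the regions on the left and on the right of the edges can be numbered with all the
numbers `0, 1, …, n + 1`, so that the numbers agree in the four corners of every crossing. (The
diagram is a connected 4-valent graph with `n` vertices and `2 n` edges; on a surface of genus `g` it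
has `n + 2 - 2 g` regions, so that a numbering with `n + 2` numbers exists exactly if the genus
is `0`.) In the conditions `p` is the passage under the crossing and `mate p` the passage over it; the
corners are, in this order, the one on the left of the overpass in front of the
underpass, left behind, right behind, right in front. -/
def IsPlanar (D : GaussCode n) : Prop :=
  ∃ L R : Fin (2 * n) → Fin (n + 2), (∀ c, ∃ p, L p = c ∨ R p = c) ∧
    ∀ p, D.isOver p = false →
      (D.pos p = true →
        L (D.mate p) = R p ∧ L (prv (D.mate p)) = L p ∧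
        R (prv (D.mate p)) = L (prv p) ∧ R (D.mate p) = R (prv p)) ∧
      (D.pos p = false →
        L (D.mate p) = L (prv p) ∧ L (prv (D.mate p)) = R (prv p) ∧
        R (prv (D.mate p)) = R p ∧ R (D.mate p) = L p)

/-- Over- and undercrossings alternate along the knot. -/
def IsAlternating (D : GaussCode n) : Prop := ∀ p, D.isOver (prv p) = !D.isOver p

/-- The Alexander matrix: the Fox Jacobian of the Wirtinger presentation, with one generator for
every edge. The row of an overpass `p` belongs to the relation `x (prv p) = x p`; the row of an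
underpass `p` belongs to the relation `x p = y * x (prv p) * y⁻¹` (positive crossing) or
`x p = y⁻¹ * x (prv p) * y` (negative crossing, the row is multiplied by `-t`), where
`y = x (mate p)` is the generator of the overcrossing strand. -/
noncomputable def alexanderMatrix (D : GaussCode n) :
    Matrix (Fin (2 * n)) (Fin (2 * n)) ℤ[X] := fun p =>
  if D.isOver p then Pi.single (prv p) 1 - Pi.single p 1
  else if D.pos p then
    Pi.single (D.mate p) (1 - X) + Pi.single (prv p) X - Pi.single p 1
  else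
    Pi.single (D.mate p) (1 - X) + Pi.single p X - Pi.single (prv p) 1

/-- The Alexander polynomial (up to a unit): the minor of the Alexander matrix obtained by deleting
the row and the column with the number `0`. -/
noncomputable def alexander (D : GaussCode n) : ℤ[X] :=
  (D.alexanderMatrix.submatrix (fun p : {p : Fin (2 * n) // (p : ℕ) ≠ 0} => p.1)
    (fun p : {p : Fin (2 * n) // (p : ℕ) ≠ 0} => p.1)).det

end GaussCode

theorem prv_val {N : ℕ} (p : Fin N) :
    ((prv p : Fin N) : ℕ) = if (p : ℕ) = 0 then N - 1 else (p : ℕ) - 1 := by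
  have hp := p.isLt
  unfold prv
  simp only
  split_ifs with h
  · rw [h, zero_add, Nat.mod_eq_of_lt (by omega)]
  · have : (p : ℕ) + (N - 1) = ((p : ℕ) - 1) + N := by omega
    rw [this, Nat.add_mod_right, Nat.mod_eq_of_lt (by omega)]

/-! ### The family of diagrams -/

/-- the passages of a crossing -/
def mateN (m p : ℕ) : ℕ :=
  if p % 4 = 0 then
    if p = 0 then 8 * m + 3 else if p < 4 * m + 4 then p - 3
    else if p < 8 * m + 4 then 8 * m + 3 - p else 8 * m + 7
  else if p % 4 = 1 then
    if p < 4 * m + 1 then p + 3 else if p = 4 * m + 1 then 8 * m + 6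
    else if p < 8 * m + 5 then 8 * m + 3 - p else 4 * m + 2
  else if p % 4 = 2 then
    if p < 4 * m + 2 then 8 * m + 3 - p else if p = 4 * m + 2 then 8 * m + 5
    else if p < 8 * m + 6 then p - 3 else 4 * m + 1
  else
    if p < 4 * m + 3 then 8 * m + 3 - p else if p < 8 * m + 3 then p + 3
    else if p = 8 * m + 3 then 0 else 8 * m + 4

/-- the positive crossings -/
def posN (m p : ℕ) : Bool :=
  if p % 4 = 0 then decide (p = 0 ∨ 4 * m + 4 ≤ p)
  else if p % 4 = 1 then decide (4 * m + 5 ≤ p ∧ p ≤ 8 * m + 1)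
  else if p % 4 = 2 then decide (p < 4 * m + 2)
  else decide (p < 4 * m + 3 ∨ 8 * m + 3 ≤ p)

theorem mateN_lt {m p : ℕ} (h : p < 2 * (4 * m + 4)) : mateN m p < 2 * (4 * m + 4) := by
  unfold mateN
  split_ifs <;> omega

theorem mateN_mateN {m p : ℕ} (h : p < 2 * (4 * m + 4)) : mateN m (mateN m p) = p := by
  generalize hq : mateN m p = q
  unfold mateN at hq
  split_ifs at hq <;> unfold mateN <;> split_ifs <;> omega

theorem mateN_parity {m p : ℕ} (h : p < 2 * (4 * m + 4)) : mateN m p % 2 = (p + 1) % 2 := by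
  generalize hq : mateN m p = q
  unfold mateN at hq
  split_ifs at hq <;> omega

theorem posN_iff (m p : ℕ) : posN m p = true ↔
    (p % 4 = 0 ∧ (p = 0 ∨ 4 * m + 4 ≤ p)) ∨ (p % 4 = 1 ∧ 4 * m + 5 ≤ p ∧ p ≤ 8 * m + 1) ∨
      (p % 4 = 2 ∧ p < 4 * m + 2) ∨ (p % 4 = 3 ∧ (p < 4 * m + 3 ∨ 8 * m + 3 ≤ p)) := by
  unfold posN
  split_ifs <;> rw [decide_eq_true_eq] <;> omega

theorem posN_mateN {m p : ℕ} (h : p < 2 * (4 * m + 4)) : posN m (mateN m p) = posN m p := by
  rw [Bool.eq_iff_iff, posN_iff, posN_iff]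
  generalize hq : mateN m p = q
  unfold mateN at hq
  split_ifs at hq <;> omega

/-- The diagram with `4 m + 4` crossings. -/
def diagram (m : ℕ) : GaussCode (4 * m + 4) where
  mate p := ⟨mateN m p, mateN_lt p.isLt⟩
  isOver p := decide ((p : ℕ) % 2 = 0)
  pos p := posN m p
  mate_mate p := Fin.ext (mateN_mateN p.isLt)
  isOver_mate p := by
    have := mateN_parity p.isLt
    rw [Bool.eq_iff_iff, Bool.not_eq_true', decide_eq_true_eq, decide_eq_false_iff_not]
    simp only
    omega
  pos_mate p := posN_mateN p.isLt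

/-- the regions on the left of the edges -/
def leftN (m p : ℕ) : ℕ :=
  if p % 4 = 0 then if p < 4 * m + 4 then 0 else if p < 8 * m + 4 then 8 * m + 6 - p else 1
  else if p % 4 = 1 then
    if p < 4 * m + 1 then p + 8 else if p = 4 * m + 1 then 3
    else if p < 8 * m + 5 then 8 * m + 10 - p else 4 * m + 5
  else if p % 4 = 2 then if p < 4 * m + 2 then p + 5 else if p < 8 * m + 6 then 1 else 0
  else if p < 4 * m + 3 then p + 2 else if p < 8 * m + 3 then 8 * m + 4 - p else 2

/-- the regions on the right of the edges -/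
def rightN (m p : ℕ) : ℕ :=
  if p % 4 = 0 then if p < 4 * m + 4 then p + 5 else if p < 8 * m + 4 then 8 * m + 8 - p else 3
  else if p % 4 = 1 then
    if p < 4 * m + 1 then p + 5 else if p = 4 * m + 1 then 4
    else if p < 8 * m + 5 then 8 * m + 8 - p else 4
  else if p % 4 = 2 then if p < 4 * m + 2 then p + 6 else if p < 8 * m + 6 then 8 * m + 7 - p else 3
  else if p < 4 * m + 3 then p + 3 else if p < 8 * m + 3 then 8 * m + 6 - p
    else if p = 8 * m + 3 then 0 else 1

theorem tab1 {m p i : ℕ} (h : p = 4 * i) (hi : i ≤ m) :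
    leftN m p = 0 ∧ rightN m p = 4 * i + 5 := by
  unfold leftN rightN
  rw [if_pos (by omega), if_pos (by omega), if_pos (by omega), if_pos (by omega)]
  omega

theorem tab2 {m p i : ℕ} (h : p = 4 * i + 1) (hi : i < m) :
    leftN m p = 4 * i + 9 ∧ rightN m p = 4 * i + 6 := by
  unfold leftN rightN
  rw [if_neg (by omega), if_pos (by omega), if_pos (by omega), if_neg (by omega),
    if_pos (by omega), if_pos (by omega)]
  omega

theorem tab3 {m p : ℕ} (h : p = 4 * m + 1) : leftN m p = 3 ∧ rightN m p = 4 := by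
  unfold leftN rightN
  rw [if_neg (by omega), if_pos (by omega), if_neg (by omega), if_pos (by omega),
    if_neg (by omega), if_pos (by omega), if_neg (by omega), if_pos (by omega)]
  omega

theorem tab4 {m p i : ℕ} (h : p = 4 * i + 2) (hi : i < m) :
    leftN m p = 4 * i + 7 ∧ rightN m p = 4 * i + 8 := by
  unfold leftN rightN
  rw [if_neg (by omega), if_neg (by omega), if_pos (by omega), if_pos (by omega),
    if_neg (by omega), if_neg (by omega), if_pos (by omega), if_pos (by omega)]
  omega

theorem tab5 {m p i : ℕ} (h : p = 4 * m + 4 * i + 2) (hi : i ≤ m) :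
    leftN m p = 1 ∧ rightN m p = 4 * m + 5 - 4 * i := by
  unfold leftN rightN
  rw [if_neg (by omega), if_neg (by omega), if_pos (by omega), if_neg (by omega),
    if_pos (by omega), if_neg (by omega), if_neg (by omega), if_pos (by omega),
    if_neg (by omega), if_pos (by omega)]
  omega

theorem tab6 {m p i : ℕ} (h : p = 4 * i + 3) (hi : i < m) :
    leftN m p = 4 * i + 5 ∧ rightN m p = 4 * i + 6 := by
  unfold leftN rightN
  rw [if_neg (by omega), if_neg (by omega), if_neg (by omega), if_pos (by omega),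
    if_neg (by omega), if_neg (by omega), if_neg (by omega), if_pos (by omega)]
  omega

theorem tab7 {m p i : ℕ} (h : p = 4 * m + 4 * i + 3) (hi : i < m) :
    leftN m p = 4 * m + 1 - 4 * i ∧ rightN m p = 4 * m + 3 - 4 * i := by
  unfold leftN rightN
  rw [if_neg (by omega), if_neg (by omega), if_neg (by omega), if_neg (by omega),
    if_pos (by omega), if_neg (by omega), if_neg (by omega), if_neg (by omega),
    if_neg (by omega), if_pos (by omega)]
  omega

theorem tab8 {m p i : ℕ} (h : p = 4 * m + 4 * i + 4) (hi : i < m) :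
    leftN m p = 4 * m + 2 - 4 * i ∧ rightN m p = 4 * m + 4 - 4 * i := by
  unfold leftN rightN
  rw [if_pos (by omega), if_neg (by omega), if_pos (by omega), if_pos (by omega),
    if_neg (by omega), if_pos (by omega)]
  omega

theorem tab9 {m p i : ℕ} (h : p = 4 * m + 4 * i + 5) (hi : i < m) :
    leftN m p = 4 * m + 5 - 4 * i ∧ rightN m p = 4 * m + 3 - 4 * i := by
  unfold leftN rightN
  rw [if_neg (by omega), if_pos (by omega), if_neg (by omega), if_neg (by omega),
    if_pos (by omega), if_neg (by omega), if_pos (by omega), if_neg (by omega),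
    if_neg (by omega), if_pos (by omega)]
  omega

theorem tab10 {m p : ℕ} (h : p = 8 * m + 3) : leftN m p = 2 ∧ rightN m p = 0 := by
  unfold leftN rightN
  rw [if_neg (by omega), if_neg (by omega), if_neg (by omega), if_neg (by omega),
    if_neg (by omega), if_neg (by omega), if_neg (by omega), if_neg (by omega),
    if_neg (by omega), if_neg (by omega), if_pos (by omega)]
  omega

theorem tab11 {m p : ℕ} (h : p = 8 * m + 4) : leftN m p = 1 ∧ rightN m p = 3 := by
  unfold leftN rightN
  rw [if_pos (by omega), if_neg (by omega), if_neg (by omega), if_pos (by omega),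
    if_neg (by omega), if_neg (by omega)]
  omega

theorem tab12 {m p : ℕ} (h : p = 8 * m + 5) : leftN m p = 4 * m + 5 ∧ rightN m p = 4 := by
  unfold leftN rightN
  rw [if_neg (by omega), if_pos (by omega), if_neg (by omega), if_neg (by omega),
    if_neg (by omega), if_neg (by omega), if_pos (by omega), if_neg (by omega),
    if_neg (by omega), if_neg (by omega)]
  omega

theorem tab13 {m p : ℕ} (h : p = 8 * m + 6) : leftN m p = 0 ∧ rightN m p = 3 := by
  unfold leftN rightN
  rw [if_neg (by omega), if_neg (by omega), if_pos (by omega), if_neg (by omega),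
    if_neg (by omega), if_neg (by omega), if_neg (by omega), if_pos (by omega),
    if_neg (by omega), if_neg (by omega)]
  omega

theorem tab14 {m p : ℕ} (h : p = 8 * m + 7) : leftN m p = 2 ∧ rightN m p = 1 := by
  unfold leftN rightN
  rw [if_neg (by omega), if_neg (by omega), if_neg (by omega), if_neg (by omega),
    if_neg (by omega), if_neg (by omega), if_neg (by omega), if_neg (by omega),
    if_neg (by omega), if_neg (by omega), if_neg (by omega)]
  omega

/-- every passage is of one of the 14 types -/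
theorem types {m p : ℕ} (h : p < 2 * (4 * m + 4)) :
    (∃ i ≤ m, p = 4 * i) ∨ (∃ i < m, p = 4 * i + 1) ∨ p = 4 * m + 1 ∨ (∃ i < m, p = 4 * i + 2) ∨
    (∃ i ≤ m, p = 4 * m + 4 * i + 2) ∨ (∃ i < m, p = 4 * i + 3) ∨
    (∃ i < m, p = 4 * m + 4 * i + 3) ∨ (∃ i < m, p = 4 * m + 4 * i + 4) ∨
    (∃ i < m, p = 4 * m + 4 * i + 5) ∨ p = 8 * m + 3 ∨ p = 8 * m + 4 ∨ p = 8 * m + 5 ∨
    p = 8 * m + 6 ∨ p = 8 * m + 7 := by
  rcases Nat.lt_or_ge p (4 * m + 1) with h1 | h1
  · rcases (by omega : p % 4 = 0 ∨ p % 4 = 1 ∨ p % 4 = 2 ∨ p % 4 = 3) with h4 | h4 | h4 | h4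
    · exact Or.inl ⟨p / 4, by omega, by omega⟩
    · exact Or.inr (Or.inl ⟨p / 4, by omega, by omega⟩)
    · exact Or.inr (Or.inr (Or.inr (Or.inl ⟨p / 4, by omega, by omega⟩)))
    · exact Or.inr (Or.inr (Or.inr (Or.inr (Or.inr (Or.inl ⟨p / 4, by omega, by omega⟩)))))
  rcases Nat.lt_or_ge p (8 * m + 3) with h2 | h2
  · rcases (by omega : p = 4 * m + 1 ∨ p % 4 = 0 ∨ (p % 4 = 1 ∧ p ≠ 4 * m + 1) ∨ p % 4 = 2 ∨
      p % 4 = 3) with h4 | h4 | h4 | h4 | h4
    · exact Or.inr (Or.inr (Or.inl h4))
    · exact Or.inr (Or.inr (Or.inr (Or.inr (Or.inr (Or.inr (Or.inr (Or.inl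
        ⟨(p - 4 * m - 4) / 4, by omega, by omega⟩)))))))
    · exact Or.inr (Or.inr (Or.inr (Or.inr (Or.inr (Or.inr (Or.inr (Or.inr (Or.inl
        ⟨(p - 4 * m - 5) / 4, by omega, by omega⟩))))))))
    · exact Or.inr (Or.inr (Or.inr (Or.inr (Or.inl
        ⟨(p - 4 * m - 2) / 4, by omega, by omega⟩))))
    · exact Or.inr (Or.inr (Or.inr (Or.inr (Or.inr (Or.inr (Or.inl
        ⟨(p - 4 * m - 3) / 4, by omega, by omega⟩))))))
  · omega

theorem LR_lt {m p : ℕ} (h : p < 2 * (4 * m + 4)) :
    leftN m p < 4 * m + 4 + 2 ∧ rightN m p < 4 * m + 4 + 2 := by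
  rcases types h with ⟨i, hi, hp⟩ | ⟨i, hi, hp⟩ | hp | ⟨i, hi, hp⟩ | ⟨i, hi, hp⟩ | ⟨i, hi, hp⟩ |
    ⟨i, hi, hp⟩ | ⟨i, hi, hp⟩ | ⟨i, hi, hp⟩ | hp | hp | hp | hp | hp
  · have := tab1 hp hi; omega
  · have := tab2 hp hi; omega
  · have := tab3 hp; omega
  · have := tab4 hp hi; omega
  · have := tab5 hp hi; omega
  · have := tab6 hp hi; omega
  · have := tab7 hp hi; omega
  · have := tab8 hp hi; omega
  · have := tab9 hp hi; omega
  · have := tab10 hp; omega
  · have := tab11 hp; omega
  · have := tab12 hp; omega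
  · have := tab13 hp; omega
  · have := tab14 hp; omega

theorem numbers (m c : ℕ) (hc : c < 4 * m + 4 + 2) :
    ∃ p < 2 * (4 * m + 4), leftN m p = c ∨ rightN m p = c := by
  rcases (by omega : c = 0 ∨ c = 1 ∨ c = 2 ∨ c = 3 ∨ c = 4 ∨ 5 ≤ c) with h | h | h | h | h | h
  · exact ⟨0, by omega, Or.inl (by have := tab1 (m := m) (p := 0) (i := 0) rfl (by omega); omega)⟩
  · exact ⟨8 * m + 4, by omega, Or.inl (by have := tab11 (m := m) rfl; omega)⟩
  · exact ⟨8 * m + 3, by omega, Or.inl (by have := tab10 (m := m) rfl; omega)⟩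
  · exact ⟨8 * m + 4, by omega, Or.inr (by have := tab11 (m := m) rfl; omega)⟩
  · exact ⟨8 * m + 5, by omega, Or.inr (by have := tab12 (m := m) rfl; omega)⟩
  · rcases (by omega : c % 4 = 1 ∨ c % 4 = 2 ∨ c % 4 = 3 ∨ c % 4 = 0) with h4 | h4 | h4 | h4
    · exact ⟨c - 5, by omega, Or.inr (by
        have := tab1 (m := m) (p := c - 5) (i := (c - 5) / 4) (by omega) (by omega); omega)⟩
    · exact ⟨c - 5, by omega, Or.inr (by
        have := tab2 (m := m) (p := c - 5) (i := (c - 5) / 4) (by omega) (by omega); omega)⟩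
    · exact ⟨c - 5, by omega, Or.inl (by
        have := tab4 (m := m) (p := c - 5) (i := (c - 5) / 4) (by omega) (by omega); omega)⟩
    · exact ⟨c - 6, by omega, Or.inr (by
        have := tab4 (m := m) (p := c - 6) (i := (c - 6) / 4) (by omega) (by omega); omega)⟩

/-- the underpasses at the negative crossings -/
theorem neg_cases {m p : ℕ} (h : p < 2 * (4 * m + 4)) (ho : p % 2 = 1) (hs : posN m p = false) :
    (∃ i < m, p = 4 * i + 1 ∧ mateN m p = 4 * i + 4) ∨
    (p = 4 * m + 1 ∧ mateN m p = 8 * m + 6) ∨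
    (∃ i < m, p = 4 * m + 4 * i + 3 ∧ mateN m p = 4 * m + 4 * i + 6) ∨
    (p = 8 * m + 5 ∧ mateN m p = 4 * m + 2) := by
  have hs' := (posN_iff m p).not.1 (by rw [hs]; exact Bool.false_ne_true)
  have hp : (∃ i < m, p = 4 * i + 1) ∨ p = 4 * m + 1 ∨ (∃ i < m, p = 4 * m + 4 * i + 3) ∨
      p = 8 * m + 5 := by
    rcases (by omega : p % 4 = 1 ∨ p % 4 = 3) with h4 | h4
    · rcases (by omega : p < 4 * m + 1 ∨ p = 4 * m + 1 ∨ p = 8 * m + 5) with h5 | h5 | h5
      · exact Or.inl ⟨p / 4, by omega, by omega⟩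
      · exact Or.inr (Or.inl h5)
      · exact Or.inr (Or.inr (Or.inr h5))
    · exact Or.inr (Or.inr (Or.inl ⟨(p - 4 * m) / 4, by omega, by omega⟩))
  rcases hp with ⟨i, hi, rfl⟩ | rfl | ⟨i, hi, rfl⟩ | rfl
  · exact Or.inl ⟨i, hi, rfl, by unfold mateN; split_ifs <;> omega⟩
  · exact Or.inr (Or.inl ⟨rfl, by unfold mateN; split_ifs <;> omega⟩)
  · exact Or.inr (Or.inr (Or.inl ⟨i, hi, rfl, by unfold mateN; split_ifs <;> omega⟩))
  · exact Or.inr (Or.inr (Or.inr ⟨rfl, by unfold mateN; split_ifs <;> omega⟩))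

/-- the underpasses at the positive crossings -/
theorem pos_cases {m p : ℕ} (h : p < 2 * (4 * m + 4)) (ho : p % 2 = 1) (hs : posN m p = true) :
    (∃ i < m, p = 4 * i + 3 ∧ mateN m p = 8 * m - 4 * i) ∨
    (∃ i < m, p = 4 * m + 4 * i + 5 ∧ mateN m p = 4 * m - 4 * i - 2) ∨
    (p = 8 * m + 3 ∧ mateN m p = 0) ∨
    (p = 8 * m + 7 ∧ mateN m p = 8 * m + 4) := by
  have hs' := (posN_iff m p).1 hs
  have hp : (∃ i < m, p = 4 * i + 3) ∨ (∃ i < m, p = 4 * m + 4 * i + 5) ∨ p = 8 * m + 3 ∨
      p = 8 * m + 7 := by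
    rcases (by omega : p % 4 = 1 ∨ p % 4 = 3) with h4 | h4
    · exact Or.inr (Or.inl ⟨(p - 4 * m - 5) / 4, by omega, by omega⟩)
    · rcases (by omega : p < 4 * m + 3 ∨ p = 8 * m + 3 ∨ p = 8 * m + 7) with h5 | h5 | h5
      · exact Or.inl ⟨p / 4, by omega, by omega⟩
      · exact Or.inr (Or.inr (Or.inl h5))
      · exact Or.inr (Or.inr (Or.inr h5))
  rcases hp with ⟨i, hi, rfl⟩ | ⟨i, hi, rfl⟩ | rfl | rfl
  · exact Or.inl ⟨i, hi, rfl, by unfold mateN; split_ifs <;> omega⟩
  · exact Or.inr (Or.inl ⟨i, hi, rfl, by unfold mateN; split_ifs <;> omega⟩)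
  · exact Or.inr (Or.inr (Or.inl ⟨rfl, by unfold mateN; split_ifs <;> omega⟩))
  · exact Or.inr (Or.inr (Or.inr ⟨rfl, by unfold mateN; split_ifs <;> omega⟩))

/-- the passage before `q` -/
def prvN (m q : ℕ) : ℕ := if q = 0 then 8 * m + 7 else q - 1

theorem prvN_pos {m q : ℕ} (h : q ≠ 0) : prvN m q = q - 1 := if_neg h

theorem corners_neg {m p : ℕ} (h : p < 2 * (4 * m + 4)) (ho : p % 2 = 1)
    (hs : posN m p = false) :
    leftN m (mateN m p) = leftN m (prvN m p) ∧
      leftN m (prvN m (mateN m p)) = rightN m (prvN m p) ∧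
      rightN m (prvN m (mateN m p)) = rightN m p ∧ rightN m (mateN m p) = leftN m p := by
  rcases neg_cases h ho hs with ⟨i, hi, hp, hq⟩ | ⟨hp, hq⟩ | ⟨i, hi, hp, hq⟩ | ⟨hp, hq⟩
  · rw [hq, prvN_pos (by omega), prvN_pos (by omega)]
    have e1 := tab2 hp hi
    have e2 := tab1 (m := m) (p := p - 1) (i := i) (by omega) (by omega)
    have e3 := tab1 (m := m) (p := 4 * i + 4) (i := i + 1) (by omega) (by omega)
    have e4 := tab6 (m := m) (p := 4 * i + 4 - 1) (i := i) (by omega) (by omega)
    omega
  · rw [hq, prvN_pos (by omega), prvN_pos (by omega)]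
    have e1 := tab3 hp
    have e2 := tab1 (m := m) (p := p - 1) (i := m) (by omega) (by omega)
    have e3 := tab13 (m := m) (p := 8 * m + 6) (by omega)
    have e4 := tab12 (m := m) (p := 8 * m + 6 - 1) (by omega)
    omega
  · rw [hq, prvN_pos (by omega), prvN_pos (by omega)]
    have e1 := tab7 hp hi
    have e2 := tab5 (m := m) (p := p - 1) (i := i) (by omega) (by omega)
    have e3 := tab5 (m := m) (p := 4 * m + 4 * i + 6) (i := i + 1) (by omega) (by omega)
    have e4 := tab9 (m := m) (p := 4 * m + 4 * i + 6 - 1) (i := i) (by omega) (by omega)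
    omega
  · rw [hq, prvN_pos (by omega), prvN_pos (by omega)]
    have e1 := tab12 hp
    have e2 := tab11 (m := m) (p := p - 1) (by omega)
    have e3 := tab5 (m := m) (p := 4 * m + 2) (i := 0) (by omega) (by omega)
    have e4 := tab3 (m := m) (p := 4 * m + 2 - 1) (by omega)
    omega

theorem corners_pos {m p : ℕ} (h : p < 2 * (4 * m + 4)) (ho : p % 2 = 1)
    (hs : posN m p = true) :
    leftN m (mateN m p) = rightN m p ∧ leftN m (prvN m (mateN m p)) = leftN m p ∧
      rightN m (prvN m (mateN m p)) = leftN m (prvN m p) ∧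
      rightN m (mateN m p) = rightN m (prvN m p) := by
  rcases pos_cases h ho hs with ⟨i, hi, hp, hq⟩ | ⟨i, hi, hp, hq⟩ | ⟨hp, hq⟩ | ⟨hp, hq⟩
  · rw [hq, prvN_pos (by omega), prvN_pos (by omega)]
    have e1 := tab6 hp hi
    have e2 := tab4 (m := m) (p := p - 1) (i := i) (by omega) (by omega)
    have e3 := tab8 (m := m) (p := 8 * m - 4 * i) (i := m - 1 - i) (by omega) (by omega)
    have e4 := tab7 (m := m) (p := 8 * m - 4 * i - 1) (i := m - 1 - i) (by omega) (by omega)
    omega
  · rw [hq, prvN_pos (by omega), prvN_pos (by omega)]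
    have e1 := tab9 hp hi
    have e2 := tab8 (m := m) (p := p - 1) (i := i) (by omega) (by omega)
    have e3 := tab4 (m := m) (p := 4 * m - 4 * i - 2) (i := m - 1 - i) (by omega) (by omega)
    have e4 := tab2 (m := m) (p := 4 * m - 4 * i - 2 - 1) (i := m - 1 - i) (by omega) (by omega)
    omega
  · have e0 : prvN m 0 = 8 * m + 7 := if_pos rfl
    rw [hq, e0, prvN_pos (by omega)]
    have e1 := tab10 hp
    have e2 := tab5 (m := m) (p := p - 1) (i := m) (by omega) (by omega)
    have e3 := tab1 (m := m) (p := 0) (i := 0) (by omega) (by omega)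
    have e4 := tab14 (m := m) (p := 8 * m + 7) (by omega)
    omega
  · rw [hq, prvN_pos (by omega), prvN_pos (by omega)]
    have e1 := tab14 hp
    have e2 := tab13 (m := m) (p := p - 1) (by omega)
    have e3 := tab11 (m := m) (p := 8 * m + 4) (by omega)
    have e4 := tab10 (m := m) (p := 8 * m + 4 - 1) (by omega)
    omega

theorem prv_eq {m : ℕ} (p : Fin (2 * (4 * m + 4))) : ((prv p : Fin _) : ℕ) = prvN m p := by
  rw [prv_val]
  unfold prvN
  split_ifs <;> omega

theorem isPlanar (m : ℕ) : (diagram m).IsPlanar := by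
  refine ⟨fun p => ⟨leftN m p, (LR_lt p.isLt).1⟩, fun p => ⟨rightN m p, (LR_lt p.isLt).2⟩, ?_, ?_⟩
  · intro c
    obtain ⟨p, hp, h⟩ := numbers m c c.isLt
    exact ⟨⟨p, hp⟩, h.imp (fun h => Fin.ext h) fun h => Fin.ext h⟩
  · intro p ho
    have ho' : (p : ℕ) % 2 = 1 := by
      have : decide ((p : ℕ) % 2 = 0) = false := ho
      rw [decide_eq_false_iff_not] at this
      omega
    have e1 : ((prv p : Fin _) : ℕ) = prvN m p := prv_eq p
    have e2 : ((prv ((diagram m).mate p) : Fin _) : ℕ) = prvN m (mateN m p) :=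
      prv_eq ((diagram m).mate p)
    constructor
    · intro hs
      obtain ⟨h1, h2, h3, h4⟩ := corners_pos p.isLt ho' hs
      rw [← e1] at h3 h4
      rw [← e2] at h2 h3
      exact ⟨Fin.ext h1, Fin.ext h2, Fin.ext h3, Fin.ext h4⟩
    · intro hs
      obtain ⟨h1, h2, h3, h4⟩ := corners_neg p.isLt ho' hs
      rw [← e1] at h1 h2
      rw [← e2] at h2 h3
      exact ⟨Fin.ext h1, Fin.ext h2, Fin.ext h3, Fin.ext h4⟩

theorem isAlternating (m : ℕ) : (diagram m).IsAlternating := by
  intro p
  have h := prv_eq p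
  have hp := p.isLt
  show decide (((prv p : Fin _) : ℕ) % 2 = 0) = !decide ((p : ℕ) % 2 = 0)
  rw [Bool.eq_iff_iff, Bool.not_eq_true', decide_eq_true_eq, decide_eq_false_iff_not, h]
  unfold prvN
  split_ifs <;> omega

/-! ### Zeros of the Alexander polynomial -/

theorem sum_single {N : ℕ} (f : ℤ[X] →+* ℝ) (a : Fin N) (u : ℤ[X]) (x : Fin N → ℝ) :
    ∑ j, f ((Pi.single a u : Fin N → ℤ[X]) j) * x j = f u * x a := by
  rw [Finset.sum_eq_single a]
  · rw [Pi.single_eq_same]
  · intro b _ hb
    rw [Pi.single_eq_of_ne hb, map_zero, zero_mul]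
  · intro h
    exact absurd (Finset.mem_univ a) h

/-- A colouring of the edges with real numbers, not all of them equal, at the parameter `t`, gives a
zero `t` of the Alexander polynomial. -/
theorem zero_of_colouring {n : ℕ} (D : GaussCode n) (t : ℝ) (x : Fin (2 * n) → ℝ)
    (h0 : ∀ p : Fin (2 * n), (p : ℕ) = 0 → x p = 0) (hx : ∃ p, x p ≠ 0)
    (h1 : ∀ p, D.isOver p = true → x (prv p) = x p)
    (h2 : ∀ p, D.isOver p = false → D.pos p = true →
      (1 - t) * x (D.mate p) + t * x (prv p) = x p)
    (h3 : ∀ p, D.isOver p = false → D.pos p = false →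
      (1 - t) * x (D.mate p) + t * x p = x (prv p)) :
    aeval t D.alexander = 0 := by
  set f : ℤ[X] →+* ℝ := (aeval t : ℤ[X] →ₐ[ℤ] ℝ).toRingHom with hf
  have hX : f X = t := by
    show aeval t (X : ℤ[X]) = t
    exact aeval_X t
  show f D.alexander = 0
  unfold GaussCode.alexander
  rw [RingHom.map_det]
  apply Matrix.exists_mulVec_eq_zero_iff.1
  refine ⟨fun p => x p.1, ?_, ?_⟩
  · obtain ⟨p, hp⟩ := hx
    intro h
    exact hp (congrFun h ⟨p, fun h => hp (h0 p h)⟩)
  · funext i
    have hrow : ∑ j, f (D.alexanderMatrix i.1 j) * x j = 0 := by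
      unfold GaussCode.alexanderMatrix
      split_ifs with ho hs
      · simp only [Pi.sub_apply, map_sub, sub_mul, Finset.sum_sub_distrib, sum_single]
        rw [map_one, h1 i.1 ho]
        ring
      · have := h2 i.1 (by simpa using ho) hs
        simp only [Pi.sub_apply, Pi.add_apply, map_sub, map_add, sub_mul, add_mul,
          Finset.sum_sub_distrib, Finset.sum_add_distrib, sum_single]
        rw [map_one, hX]
        linarith
      · have := h3 i.1 (by simpa using ho) (by simpa using hs)
        simp only [Pi.sub_apply, Pi.add_apply, map_sub, map_add, sub_mul, add_mul,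
          Finset.sum_sub_distrib, Finset.sum_add_distrib, sum_single]
        rw [map_one, hX]
        linarith
    rw [← Fintype.sum_subtype_add_sum_subtype (fun p : Fin (2 * n) => (p : ℕ) ≠ 0)] at hrow
    have hz : ∑ j : {p : Fin (2 * n) // ¬ (p : ℕ) ≠ 0}, f (D.alexanderMatrix i.1 j) * x j = 0 := by
      apply Finset.sum_eq_zero
      intro j _
      rw [h0 j.1 (not_not.1 j.2), mul_zero]
    rw [hz, add_zero] at hrow
    exact hrow

/-- The Alexander polynomial takes the value `1` or `-1` at `1`. -/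
theorem eval_one {n : ℕ} (D : GaussCode n) :
    D.alexander.eval 1 = 1 ∨ D.alexander.eval 1 = -1 := by
  have e : D.alexander.eval 1 = evalRingHom 1 D.alexander := rfl
  rw [e]
  unfold GaussCode.alexander
  rw [RingHom.map_det]
  have hval : ∀ i j : {p : Fin (2 * n) // (p : ℕ) ≠ 0},
      ((evalRingHom 1).mapMatrix (D.alexanderMatrix.submatrix
        (fun p : {p : Fin (2 * n) // (p : ℕ) ≠ 0} => p.1)
        (fun p : {p : Fin (2 * n) // (p : ℕ) ≠ 0} => p.1))) i j =
      (if D.isOver i.1 = false ∧ D.pos i.1 = false then -1 else (1 : ℤ)) *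
        ((if j.1 = prv i.1 then 1 else 0) - (if j.1 = i.1 then 1 else 0)) := by
    intro i j
    show (evalRingHom 1) (D.alexanderMatrix i.1 j.1) = _
    unfold GaussCode.alexanderMatrix
    rcases h1 : D.isOver i.1 with _ | _ <;> rcases h2 : D.pos i.1 with _ | _ <;>
      simp [Pi.single_apply, apply_ite (eval (1 : ℤ))]
  rw [Matrix.det_of_isLowerTriangular]
  · refine Finset.prod_induction _ (fun x => x = 1 ∨ x = -1) ?_ (Or.inl rfl) ?_
    · rintro a b (rfl | rfl) (rfl | rfl) <;> simp
    · intro i _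
      rw [hval]
      have hne : i.1 ≠ prv i.1 := by
        intro h
        have h' := congrArg Fin.val h
        rw [prv_val, if_neg i.2] at h'
        have := i.2
        omega
      rw [if_neg hne, if_pos rfl]
      split_ifs <;> simp
  · intro i j hij
    have hij' : i < j := hij
    rw [hval]
    have hne : j.1 ≠ prv i.1 := by
      intro h
      have h' := congrArg Fin.val h
      rw [prv_val, if_neg i.2] at h'
      have : (i.1 : ℕ) < j.1 := hij'
      omega
    have hne' : j.1 ≠ i.1 := fun h => (ne_of_lt hij') (Subtype.ext h.symm)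
    rw [if_neg hne, if_neg hne']
    simp

/-- the colours of the edges; `u = t - 1` and `d = u ^ 2 - t` -/
noncomputable def colN (m : ℕ) (t u d : ℝ) (p : ℕ) : ℝ :=
  if p % 4 = 0 then
    if p < 4 * m + 4 then t * u * (p / 4 : ℕ)
    else if p < 8 * m + 4 then t * u * ((8 * m + 4 - p) / 4 : ℕ) - t else t * d
  else if p % 4 = 1 then
    if p < 4 * m + 1 then t * u * (p / 4 : ℕ) + u ^ 2
    else if p < 8 * m + 5 then t * u * ((8 * m + 1 - p) / 4 : ℕ) + d else u * d
  else if p % 4 = 2 then
    if p < 4 * m + 2 then t * u * (p / 4 : ℕ) + u ^ 2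
    else if p < 8 * m + 6 then t * u * ((8 * m + 2 - p) / 4 : ℕ) + d else u * d
  else
    if p < 4 * m + 3 then t * u * ((p + 1) / 4 : ℕ)
    else if p < 8 * m + 3 then t * u * ((8 * m + 3 - p) / 4 : ℕ) - t
    else if p = 8 * m + 3 then t * d else 0

section
variable {m : ℕ} {t u d : ℝ} {p : ℕ}

theorem ctab1 (i : ℕ) (h : p = 4 * i) (hi : i ≤ m) : colN m t u d p = t * u * i := by
  unfold colN
  rw [if_pos (by omega), if_pos (by omega), (by omega : p / 4 = i)]

theorem ctab2 (i : ℕ) (h : p = 4 * i + 1) (hi : i < m) :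
    colN m t u d p = t * u * i + u ^ 2 := by
  unfold colN
  rw [if_neg (by omega), if_pos (by omega), if_pos (by omega), (by omega : p / 4 = i)]

theorem ctab4 (i : ℕ) (h : p = 4 * i + 2) (hi : i < m) :
    colN m t u d p = t * u * i + u ^ 2 := by
  unfold colN
  rw [if_neg (by omega), if_neg (by omega), if_pos (by omega), if_pos (by omega),
    (by omega : p / 4 = i)]

theorem ctab5 (k : ℕ) (h : p + 4 * k = 8 * m + 2) (hk : k ≤ m) :
    colN m t u d p = t * u * k + d := by
  unfold colN
  rw [if_neg (by omega), if_neg (by omega), if_pos (by omega), if_neg (by omega),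
    if_pos (by omega), (by omega : (8 * m + 2 - p) / 4 = k)]

theorem ctab6 (i : ℕ) (h : p + 1 = 4 * i) (hi : i ≤ m) : colN m t u d p = t * u * i := by
  unfold colN
  rw [if_neg (by omega), if_neg (by omega), if_neg (by omega), if_pos (by omega),
    (by omega : (p + 1) / 4 = i)]

theorem ctab7 (k : ℕ) (h : p + 4 * k = 8 * m + 3) (hk : 1 ≤ k) (hk' : k ≤ m) :
    colN m t u d p = t * u * k - t := by
  unfold colN
  rw [if_neg (by omega), if_neg (by omega), if_neg (by omega), if_neg (by omega),
    if_pos (by omega), (by omega : (8 * m + 3 - p) / 4 = k)]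

theorem ctab8 (k : ℕ) (h : p + 4 * k = 8 * m + 4) (hk : 1 ≤ k) (hk' : k ≤ m) :
    colN m t u d p = t * u * k - t := by
  unfold colN
  rw [if_pos (by omega), if_neg (by omega), if_pos (by omega),
    (by omega : (8 * m + 4 - p) / 4 = k)]

theorem ctab9 (k : ℕ) (h : p + 4 * k = 8 * m + 1) (hk' : k ≤ m) :
    colN m t u d p = t * u * k + d := by
  unfold colN
  rw [if_neg (by omega), if_pos (by omega), if_neg (by omega), if_pos (by omega),
    (by omega : (8 * m + 1 - p) / 4 = k)]

theorem ctab10 (h : p = 8 * m + 3) : colN m t u d p = t * d := by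
  unfold colN
  rw [if_neg (by omega), if_neg (by omega), if_neg (by omega), if_neg (by omega),
    if_neg (by omega), if_pos (by omega)]

theorem ctab11 (h : p = 8 * m + 4) : colN m t u d p = t * d := by
  unfold colN
  rw [if_pos (by omega), if_neg (by omega), if_neg (by omega)]

theorem ctab12 (h : p = 8 * m + 5) : colN m t u d p = u * d := by
  unfold colN
  rw [if_neg (by omega), if_pos (by omega), if_neg (by omega), if_neg (by omega)]

theorem ctab13 (h : p = 8 * m + 6) : colN m t u d p = u * d := by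
  unfold colN
  rw [if_neg (by omega), if_neg (by omega), if_pos (by omega), if_neg (by omega),
    if_neg (by omega)]

theorem ctab14 (h : p = 8 * m + 7) : colN m t u d p = 0 := by
  unfold colN
  rw [if_neg (by omega), if_neg (by omega), if_neg (by omega), if_neg (by omega),
    if_neg (by omega), if_neg (by omega)]

theorem col_over (h : p < 2 * (4 * m + 4)) (ho : p % 2 = 0) :
    colN m t u d (prvN m p) = colN m t u d p := by
  rcases types h with ⟨i, hi, hp⟩ | ⟨i, hi, hp⟩ | hp | ⟨i, hi, hp⟩ | ⟨i, hi, hp⟩ | ⟨i, hi, hp⟩ |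
    ⟨i, hi, hp⟩ | ⟨i, hi, hp⟩ | ⟨i, hi, hp⟩ | hp | hp | hp | hp | hp
  · rcases Nat.eq_zero_or_pos i with rfl | hi0
    · have e0 : prvN m p = 8 * m + 7 := if_pos (by omega)
      rw [e0, ctab14 rfl, ctab1 0 hp hi]
      simp
    · rw [prvN_pos (by omega), ctab6 i (by omega) hi, ctab1 i hp hi]
  · omega
  · omega
  · rw [prvN_pos (by omega), ctab2 i (by omega) hi, ctab4 i hp hi]
  · rw [prvN_pos (by omega), ctab9 (m - i) (by omega) (by omega), ctab5 (m - i) (by omega)
      (by omega)]
  · omega
  · omega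
  · rw [prvN_pos (by omega), ctab7 (m - i) (by omega) (by omega) (by omega),
      ctab8 (m - i) (by omega) (by omega) (by omega)]
  · omega
  · omega
  · rw [prvN_pos (by omega), ctab10 (by omega), ctab11 hp]
  · omega
  · rw [prvN_pos (by omega), ctab12 (by omega), ctab13 hp]
  · omega

theorem col_neg (hu : t = u + 1) (hd : d = u ^ 2 - t) (hE : d ^ 2 = m * t * u ^ 2)
    (h : p < 2 * (4 * m + 4)) (ho : p % 2 = 1) (hs : posN m p = false) :
    (1 - t) * colN m t u d (mateN m p) + t * colN m t u d p = colN m t u d (prvN m p) := by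
  rcases neg_cases h ho hs with ⟨i, hi, hp, hq⟩ | ⟨hp, hq⟩ | ⟨i, hi, hp, hq⟩ | ⟨hp, hq⟩
  · rw [hq, prvN_pos (by omega), ctab1 (i + 1) (by omega) (by omega), ctab2 i hp hi,
      ctab1 i (by omega) (by omega), hu]
    push_cast
    ring
  · rw [hq, prvN_pos (by omega), ctab13 rfl, ctab9 m (by omega) (by omega),
      ctab1 m (by omega) (by omega)]
    subst hu
    linear_combination (-1 : ℝ) * hE + d * hd
  · rw [hq, prvN_pos (by omega), ctab5 (m - i - 1) (by omega) (by omega),
      ctab7 (m - i) (by omega) (by omega) (by omega), ctab5 (m - i) (by omega) (by omega)]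
    have e : ((m - i : ℕ) : ℝ) = ((m - i - 1 : ℕ) : ℝ) + 1 := by
      rw [← Nat.cast_succ]
      congr 1
      omega
    rw [e, hu] at *
    rw [hd]
    ring
  · rw [hq, prvN_pos (by omega), ctab5 m (by omega) (by omega), ctab12 hp, ctab11 (by omega)]
    subst hu
    linear_combination hE - d * hd

theorem col_pos (hu : t = u + 1) (hd : d = u ^ 2 - t)
    (h : p < 2 * (4 * m + 4)) (ho : p % 2 = 1) (hs : posN m p = true) :
    (1 - t) * colN m t u d (mateN m p) + t * colN m t u d (prvN m p) = colN m t u d p := by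
  rcases pos_cases h ho hs with ⟨i, hi, hp, hq⟩ | ⟨i, hi, hp, hq⟩ | ⟨hp, hq⟩ | ⟨hp, hq⟩
  · rw [hq, prvN_pos (by omega), ctab8 (i + 1) (by omega) (by omega) (by omega),
      ctab4 i (by omega) hi, ctab6 (i + 1) (by omega) (by omega), hu]
    push_cast
    ring
  · rw [hq, prvN_pos (by omega), ctab4 (m - i - 1) (by omega) (by omega),
      ctab8 (m - i - 1 + 1) (by omega) (by omega) (by omega), ctab9 (m - i - 1) (by omega)
      (by omega), hd, hu]
    push_cast
    ring
  · rw [hq, prvN_pos (by omega), ctab1 0 (by omega) (by omega), ctab5 0 (by omega) (by omega),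
      ctab10 hp]
    push_cast
    ring
  · rw [hq, prvN_pos (by omega), ctab11 rfl, ctab13 (by omega), ctab14 hp, hu]
    ring

end

theorem exists_root (m : ℕ) (hm : 1 ≤ m) :
    ∃ t : ℝ, (m : ℝ) + 2 < t ∧ (t ^ 2 - 3 * t + 1) ^ 2 = m * t * (t - 1) ^ 2 := by
  have hm' : (1 : ℝ) ≤ m := by exact_mod_cast hm
  set f : ℝ → ℝ := fun t => (t ^ 2 - 3 * t + 1) ^ 2 - m * t * (t - 1) ^ 2 with hf
  have hc : Continuous f := by
    rw [hf]
    fun_prop
  have h1 : f (m + 2) < 0 := by
    have : f (m + 2) = -(2 * (m : ℝ) ^ 3 + 6 * m ^ 2 + 4 * m - 1) := by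
      simp only [hf]
      ring
    rw [this]
    have : (0 : ℝ) < 2 * (m : ℝ) ^ 3 + 6 * m ^ 2 + 4 * m - 1 := by
      have : (0 : ℝ) ≤ (m : ℝ) ^ 3 := by positivity
      nlinarith
    linarith
  have h2 : 0 < f (m + 5) := by
    have : f (m + 5) = (m : ℝ) ^ 3 + 15 * m ^ 2 + 74 * m + 121 := by
      simp only [hf]
      ring
    rw [this]
    positivity
  obtain ⟨t, ht, h0⟩ := intermediate_value_Ioo (by linarith : (m : ℝ) + 2 ≤ m + 5) hc.continuousOn
    (show (0 : ℝ) ∈ Set.Ioo (f (m + 2)) (f (m + 5)) from ⟨h1, h2⟩)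
  exact ⟨t, ht.1, by simp only [hf] at h0; linarith⟩

theorem zero (m : ℕ) (hm : 1 ≤ m) :
    ∃ t : ℝ, (m : ℝ) + 2 < t ∧ aeval t (diagram m).alexander = 0 := by
  obtain ⟨t, ht, hE⟩ := exists_root m hm
  refine ⟨t, ht, ?_⟩
  have hm' : (1 : ℝ) ≤ m := by exact_mod_cast hm
  have hE' : ((t - 1) ^ 2 - t) ^ 2 = m * t * (t - 1) ^ 2 := by
    rw [← hE]
    ring
  have hprv : ∀ q : Fin (2 * (4 * m + 4)), ((prv q : Fin _) : ℕ) = prvN m q := prv_eq
  refine zero_of_colouring (diagram m) t
    (fun p => colN m t (t - 1) ((t - 1) ^ 2 - t) p) ?_ ?_ ?_ ?_ ?_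
  · intro p hp
    rw [ctab1 0 (by omega) (by omega)]
    simp
  · refine ⟨⟨1, by omega⟩, ?_⟩
    simp only
    rw [ctab2 0 (by omega) (by omega)]
    have : t - 1 ≠ 0 := by
      intro h
      linarith
    simpa using this
  · intro p ho
    have ho' : (p : ℕ) % 2 = 0 := of_decide_eq_true ho
    rw [hprv]
    exact col_over p.isLt ho'
  · intro p ho hs
    have ho' : (p : ℕ) % 2 = 1 := by
      have : decide ((p : ℕ) % 2 = 0) = false := ho
      rw [decide_eq_false_iff_not] at this
      omega
    rw [hprv]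
    exact col_pos (by ring) rfl p.isLt ho' hs
  · intro p ho hs
    have ho' : (p : ℕ) % 2 = 1 := by
      have : decide ((p : ℕ) % 2 = 0) = false := ho
      rw [decide_eq_false_iff_not] at this
      omega
    rw [hprv]
    exact col_neg (by ring) rfl hE' p.isLt ho' hs

/-- **The zeros of the Alexander polynomials of alternating knots have unbounded real parts.**
For every `m ≥ 1` there is an alternating knot diagram with `4 m + 4` crossings whose Alexander
polynomial (which is `1` or `-1` at `1`, in particular not zero) has a real zero greater than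
`m + 2`. Hence there is no constant `C` such that the real parts of all zeros of the Alexander
polynomials of all alternating knots are at most `C`. -/
theorem result :
    (∀ m : ℕ, 1 ≤ m → ∃ D : GaussCode (4 * m + 4), D.IsPlanar ∧ D.IsAlternating ∧
      (D.alexander.eval 1 = 1 ∨ D.alexander.eval 1 = -1) ∧
      ∃ x : ℝ, (m : ℝ) + 2 < x ∧ aeval (x : ℂ) D.alexander = 0) ∧
    ¬ ∃ C : ℝ, ∀ (n : ℕ) (D : GaussCode n), D.IsPlanar → D.IsAlternating →
      ∀ z : ℂ, z ≠ 0 → aeval z D.alexander = 0 → z.re ≤ C := by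
  have h : ∀ m : ℕ, 1 ≤ m → ∃ D : GaussCode (4 * m + 4), D.IsPlanar ∧ D.IsAlternating ∧
      (D.alexander.eval 1 = 1 ∨ D.alexander.eval 1 = -1) ∧
      ∃ x : ℝ, (m : ℝ) + 2 < x ∧ aeval (x : ℂ) D.alexander = 0 := by
    intro m hm
    obtain ⟨t, ht, h0⟩ := zero m hm
    refine ⟨diagram m, isPlanar m, isAlternating m, eval_one _, t, ht, ?_⟩
    have := aeval_algebraMap_apply ℂ t (diagram m).alexander
    rw [h0, map_zero] at this
    exact this
  refine ⟨h, ?_⟩
  rintro ⟨C, hC⟩
  obtain ⟨m, hm⟩ := exists_nat_gt C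
  obtain ⟨D, h1, h2, -, x, hx, h3⟩ := h (m + 1) (by omega)
  have h4 : (0 : ℝ) ≤ m := Nat.cast_nonneg m
  push_cast at hx
  have h5 : (x : ℂ) ≠ 0 := by
    intro h
    have : x = 0 := by exact_mod_cast h
    linarith
  have h6 := hC _ D h1 h2 x h5 h3
  rw [Complex.ofReal_re] at h6
  linarith

end Pool.Agent.Results.MP_644796_gt.UnboundedZeros
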